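import Mathlib

/-!
# Boxes which do not cover the unit cube

For every `d ≥ 2` and every `T` with `0 < T < 2 ^ d - 1` there is a finite family of boxes with
sides at most one, one side equal to one, and total volume exactly `T`, which does not cover the
unit cube by translations: `2 ^ d - 1` equal cubes and one thin box.
-/

set_option autoImplicit false

open Finset

namespace Pool.Agent.H95.MC

/-- two points of `[0, 1]` at distance more than `s` which avoid a short interval -/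
theorem two_points {s η c : ℝ} (hs0 : 0 < s) (hη : 0 < η) (hηs : η < (1 - s) / 2) :
    ∃ x y : ℝ, 0 ≤ x ∧ x ≤ 1 ∧ 0 ≤ y ∧ y ≤ 1 ∧ s < y - x ∧ ¬ (c ≤ x ∧ x ≤ c + η) ∧
      ¬ (c ≤ y ∧ y ≤ c + η) := by
  have hx : ∃ x : ℝ, 0 ≤ x ∧ x ≤ (η + (1 - s) / 2) / 2 ∧ ¬ (c ≤ x ∧ x ≤ c + η) := by
    by_cases h : c ≤ 0 ∧ 0 ≤ c + η
    · refine ⟨(η + (1 - s) / 2) / 2, by linarith, le_rfl, fun h1 => ?_⟩
      linarith [h.1, h1.2]
    · exact ⟨0, le_rfl, by linarith, h⟩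
  have hy : ∃ y : ℝ, y ≤ 1 ∧ 1 - (η + (1 - s) / 2) / 2 ≤ y ∧ ¬ (c ≤ y ∧ y ≤ c + η) := by
    by_cases h : c ≤ 1 ∧ 1 ≤ c + η
    · refine ⟨1 - (η + (1 - s) / 2) / 2, by linarith, le_rfl, fun h1 => ?_⟩
      linarith [h.2, h1.1]
    · exact ⟨1, le_rfl, by linarith, h⟩
  obtain ⟨x, x0, x1, x2⟩ := hx
  obtain ⟨y, y0, y1, y2⟩ := hy
  exact ⟨x, y, x0, by linarith, by linarith, y0, by linarith, x2, y2⟩

/-- A thin box and `2 ^ d - 1` cubes of side `s < 1` do not cover the unit cube. -/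
theorem not_cover {m N : ℕ} (hN : N < 2 ^ (m + 2)) {s η : ℝ} (hs0 : 0 < s) (hη : 0 < η)
    (hηs : η < (1 - s) / 2) (a : Fin (N + 1) → Fin (m + 2) → ℝ) (h0 : a 0 1 = η)
    (h1 : ∀ (i : Fin N) k, a i.succ k = s) :
    ¬ ∃ v : Fin (N + 1) → Fin (m + 2) → ℝ, ∀ x : Fin (m + 2) → ℝ, (∀ k, 0 ≤ x k ∧ x k ≤ 1) →
      ∃ i, ∀ k, v i k ≤ x k ∧ x k ≤ v i k + a i k := by
  rintro ⟨v, hv⟩
  obtain ⟨x0, y0, p1, p2, p3, p4, p5, p6, p7⟩ := two_points (c := v 0 1) hs0 hη hηs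
  let lo : Fin (m + 2) → ℝ := fun k => if k = 1 then x0 else 0
  let hi : Fin (m + 2) → ℝ := fun k => if k = 1 then y0 else 1
  have hlo : ∀ k, 0 ≤ lo k ∧ lo k ≤ 1 := by
    intro k
    simp only [lo]
    split_ifs
    · exact ⟨p1, p2⟩
    · exact ⟨le_rfl, zero_le_one⟩
  have hhi : ∀ k, 0 ≤ hi k ∧ hi k ≤ 1 := by
    intro k
    simp only [hi]
    split_ifs
    · exact ⟨p3, p4⟩
    · exact ⟨zero_le_one, le_rfl⟩
  have hdist : ∀ k, s < hi k - lo k := by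
    intro k
    simp only [lo, hi]
    split_ifs
    · exact p5
    · linarith
  let pt : (Fin (m + 2) → Bool) → Fin (m + 2) → ℝ := fun b k => if b k then hi k else lo k
  have hpt : ∀ b k, 0 ≤ pt b k ∧ pt b k ≤ 1 := by
    intro b k
    simp only [pt]
    split_ifs
    · exact hhi k
    · exact hlo k
  have hcov : ∀ b, ∃ j : Fin N, ∀ k, v j.succ k ≤ pt b k ∧ pt b k ≤ v j.succ k + s := by
    intro b
    obtain ⟨i, hi'⟩ := hv (pt b) (hpt b)
    rcases Fin.eq_zero_or_eq_succ i with rfl | ⟨j, rfl⟩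
    · exfalso
      have h2 := hi' 1
      rw [h0] at h2
      simp only [pt] at h2
      split_ifs at h2
      · simp only [hi, if_true] at h2
        exact p7 h2
      · simp only [lo, if_true] at h2
        exact p6 h2
    · refine ⟨j, fun k => ?_⟩
      have := hi' k
      rwa [h1] at this
  choose j hj using hcov
  obtain ⟨b, b', hbb, hjj⟩ := Fintype.exists_ne_map_eq_of_card_lt j (by
    rw [Fintype.card_fin, Fintype.card_fun, Fintype.card_bool, Fintype.card_fin]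
    exact hN)
  obtain ⟨k, hk⟩ := Function.ne_iff.1 hbb
  have e1 := hj b k
  have e2 := hj b' k
  rw [hjj] at e1
  have e3 := hdist k
  simp only [pt] at e1 e2
  cases hb : b k <;> cases hb' : b' k <;> simp [hb, hb'] at hk e1 e2 <;> linarith [e1.1, e1.2, e2.1, e2.2]

/-- **The constant `2 ^ d - 1` cannot be lowered**, whatever the total volume `T < 2 ^ d - 1`. -/
theorem sharp_exact (d : ℕ) (hd : 2 ≤ d) (T : ℝ) (hT0 : 0 < T) (hT : T < 2 ^ d - 1) :
    ∃ (n : ℕ) (a : Fin n → Fin d → ℝ), (∀ i k, 0 < a i k ∧ a i k ≤ 1) ∧ (∃ i k, a i k = 1) ∧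
      ∑ i, ∏ k, a i k = T ∧
      ¬ ∃ v : Fin n → Fin d → ℝ, ∀ x : Fin d → ℝ, (∀ k, 0 ≤ x k ∧ x k ≤ 1) →
        ∃ i, ∀ k, v i k ≤ x k ∧ x k ≤ v i k + a i k := by
  obtain ⟨m, rfl⟩ : ∃ m, d = m + 2 := ⟨d - 2, by omega⟩
  have hpow : (4 : ℝ) ≤ 2 ^ (m + 2) := by
    have : (1 : ℝ) ≤ 2 ^ m := one_le_pow₀ (by norm_num)
    rw [pow_add]
    linarith
  set N : ℕ := 2 ^ (m + 2) - 1 with hN
  have hNr : (N : ℝ) = 2 ^ (m + 2) - 1 := by
    rw [hN, Nat.cast_sub Nat.one_le_two_pow]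
    push_cast
    ring
  have hN0 : (0 : ℝ) < N := by rw [hNr]; linarith
  have hd0 : (0 : ℝ) < (m + 2 : ℕ) := by positivity
  -- the side of the largest cubes
  set σ : ℝ := (T / N) ^ (1 / ((m + 2 : ℕ) : ℝ)) with hσ
  have hTN0 : 0 < T / N := div_pos hT0 hN0
  have hTN1 : T / N < 1 := by
    rw [div_lt_one hN0, hNr]
    exact hT
  have hσ1 : σ < 1 := Real.rpow_lt_one hTN0.le hTN1 (by positivity)
  have hσ0 : 0 < σ := Real.rpow_pos_of_pos hTN0 _
  -- the thin side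
  set η : ℝ := min ((1 - σ) / 4) (T / 2) with hη
  have hη0 : 0 < η := lt_min (by linarith) (by linarith)
  have hησ : η ≤ (1 - σ) / 4 := min_le_left _ _
  have hηT : η ≤ T / 2 := min_le_right _ _
  have hη1 : η < 1 := by linarith
  have hηp : η ^ (m + 1) ≤ η := by
    calc η ^ (m + 1) ≤ η ^ 1 := pow_le_pow_of_le_one hη0.le hη1.le (by omega)
      _ = η := pow_one η
  have hηp0 : 0 < η ^ (m + 1) := pow_pos hη0 _
  set s : ℝ := ((T - η ^ (m + 1)) / N) ^ (1 / ((m + 2 : ℕ) : ℝ)) with hs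
  have hb0 : 0 < (T - η ^ (m + 1)) / N := div_pos (by linarith) hN0
  have hs0 : 0 < s := Real.rpow_pos_of_pos hb0 _
  have hsσ : s ≤ σ := by
    apply Real.rpow_le_rpow hb0.le _ (by positivity)
    exact div_le_div_of_nonneg_right (by linarith) hN0.le
  have hspow : s ^ (m + 2) = (T - η ^ (m + 1)) / N := by
    rw [hs, ← Real.rpow_natCast, ← Real.rpow_mul hb0.le, one_div, inv_mul_cancel₀ hd0.ne',
      Real.rpow_one]
  let a : Fin (N + 1) → Fin (m + 2) → ℝ :=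
    Fin.cons (fun k => if k = 0 then 1 else η) (fun _ _ => s)
  have ha0 : ∀ k, a 0 k = if k = 0 then 1 else η := fun k => rfl
  have ha1 : ∀ (i : Fin N) k, a i.succ k = s := fun i k => rfl
  refine ⟨N + 1, a, ?_, ⟨0, 0, by rw [ha0, if_pos rfl]⟩, ?_, ?_⟩
  · intro i k
    rcases Fin.eq_zero_or_eq_succ i with rfl | ⟨j, rfl⟩
    · rw [ha0]
      split_ifs
      · exact ⟨one_pos, le_rfl⟩
      · exact ⟨hη0, hη1.le⟩
    · rw [ha1]
      exact ⟨hs0, by linarith⟩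
  · rw [Fin.sum_univ_succ]
    have e1 : ∏ k, a 0 k = η ^ (m + 1) := by
      rw [Fin.prod_univ_succ, ha0, if_pos rfl, one_mul]
      have : ∀ k : Fin (m + 1), a 0 k.succ = η := fun k => by
        rw [ha0, if_neg (Fin.succ_ne_zero k)]
      rw [Finset.prod_congr rfl (fun k _ => this k), Finset.prod_const, Finset.card_univ,
        Fintype.card_fin]
    have e2 : ∀ i : Fin N, ∏ k, a i.succ k = s ^ (m + 2) := fun i => by
      rw [Finset.prod_congr rfl (fun k _ => ha1 i k), Finset.prod_const, Finset.card_univ,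
        Fintype.card_fin]
    rw [e1, Finset.sum_congr rfl (fun i _ => e2 i), Finset.sum_const, Finset.card_univ,
      Fintype.card_fin, nsmul_eq_mul, hspow]
    field_simp
    ring
  · refine not_cover (N := N) ?_ hs0 hη0 (by linarith) a ?_ ha1
    · have : 0 < 2 ^ (m + 2) := by positivity
      omega
    · rw [ha0, if_neg (by simp)]

theorem sharp (d : ℕ) (hd : 2 ≤ d) (T : ℝ) (hT : T < 2 ^ d - 1) :
    ∃ (n : ℕ) (a : Fin n → Fin d → ℝ), (∀ i k, 0 < a i k ∧ a i k ≤ 1) ∧ (∃ i k, a i k = 1) ∧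
      T < ∑ i, ∏ k, a i k ∧
      ¬ ∃ v : Fin n → Fin d → ℝ, ∀ x : Fin d → ℝ, (∀ k, 0 ≤ x k ∧ x k ≤ 1) →
        ∃ i, ∀ k, v i k ≤ x k ∧ x k ≤ v i k + a i k := by
  have h2 : (0 : ℝ) < 2 ^ d - 1 := by
    have : (2 : ℝ) ≤ 2 ^ d := by
      calc (2 : ℝ) = 2 ^ 1 := by norm_num
        _ ≤ 2 ^ d := pow_le_pow_right₀ (by norm_num) (by omega)
    linarith
  obtain ⟨n, a, h3, h4, h5, h6⟩ := sharp_exact d hd ((max T 0 + (2 ^ d - 1)) / 2)
    (by have := le_max_right T 0; linarith) (by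
      have : max T 0 < 2 ^ d - 1 := max_lt hT h2
      linarith)
  refine ⟨n, a, h3, h4, ?_, h6⟩
  rw [h5]
  have := le_max_left T 0
  linarith

end Pool.Agent.H95.MC
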