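import Mathlib

/-!
# Boxes which do not cover a box with integer sides

For all `d ≥ 2`, all positive integers `n_1, …, n_d` and every `T` with
`0 < T < (n_1 + 1) ⋯ (n_d + 1) - 1` there is a finite family of boxes with sides at most one, one side
equal to one, and total volume exactly `T`, which does not cover the box `[0, n_1] × ⋯ × [0, n_d]` by
translations: `(n_1 + 1) ⋯ (n_d + 1) - 1` equal cubes and one thin box.
-/

set_option autoImplicit false

open Finset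

namespace Pool.Agent.H95.MC

/-- `n + 1` points of `[0, n]` with distances more than `s` which avoid a short interval -/
theorem grid {s η c : ℝ} {n : ℕ} (hn : 1 ≤ n) (hs0 : 0 < s) (hη : 0 < η)
    (hηs : η < (1 - s) / 3) :
    ∃ p : Fin (n + 1) → ℝ, (∀ j, 0 ≤ p j ∧ p j ≤ n ∧ ¬ (c ≤ p j ∧ p j ≤ c + η)) ∧
      ∀ i j, i < j → s < p j - p i := by
  set t : ℝ := (1 - s) / 3 with ht
  have hn0 : (1 : ℝ) ≤ n := by exact_mod_cast hn
  have hn1 : (0 : ℝ) < n := by linarith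
  set σ : ℝ := 1 - t / n with hσ
  have htn : t / n ≤ t := div_le_self (by linarith) hn0
  have htn0 : 0 < t / n := div_pos (by linarith) hn1
  have hnσ : (n : ℝ) * σ = n - t := by
    rw [hσ]
    field_simp
  have hσ0 : 0 < σ := by linarith
  have hsσ : s < σ := by linarith
  have hgen : ∀ u : ℝ, 0 ≤ u → u ≤ t → (∀ j : Fin (n + 1), ¬ (c ≤ (j : ℕ) * σ + u ∧
      (j : ℕ) * σ + u ≤ c + η)) →
      ∃ p : Fin (n + 1) → ℝ, (∀ j, 0 ≤ p j ∧ p j ≤ n ∧ ¬ (c ≤ p j ∧ p j ≤ c + η)) ∧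
      ∀ i j, i < j → s < p j - p i := by
    intro u hu0 hut hav
    refine ⟨fun j => (j : ℕ) * σ + u, fun j => ⟨by positivity, ?_, hav j⟩, fun i j hij => ?_⟩
    · have h1 : ((j : ℕ) : ℝ) ≤ n := by
        have := j.2
        exact_mod_cast (by omega : (j : ℕ) ≤ n)
      have h2 : ((j : ℕ) : ℝ) * σ ≤ n * σ := mul_le_mul_of_nonneg_right h1 hσ0.le
      change ((j : ℕ) : ℝ) * σ + u ≤ n
      linarith
    · have h1 : ((i : ℕ) : ℝ) + 1 ≤ (j : ℕ) := by
        have : (i : ℕ) < j := hij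
        exact_mod_cast this
      have h2 : (((i : ℕ) : ℝ) + 1) * σ ≤ (j : ℕ) * σ := mul_le_mul_of_nonneg_right h1 hσ0.le
      change s < ((j : ℕ) : ℝ) * σ + u - (((i : ℕ) : ℝ) * σ + u)
      linarith
  by_cases h : ∃ j : Fin (n + 1), c ≤ (j : ℕ) * σ ∧ (j : ℕ) * σ ≤ c + η
  · obtain ⟨j, hj1, hj2⟩ := h
    refine hgen t (by linarith) le_rfl fun j' hj' => ?_
    have h1 : ((j' : ℕ) : ℝ) * σ < (j : ℕ) * σ := by linarith [hj'.2]
    have h2 : ((j' : ℕ) : ℝ) < (j : ℕ) := lt_of_mul_lt_mul_right h1 hσ0.le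
    have h3 : ((j' : ℕ) : ℝ) + 1 ≤ (j : ℕ) := by
      have : (j' : ℕ) < (j : ℕ) := by exact_mod_cast h2
      exact_mod_cast this
    have h4 : (((j' : ℕ) : ℝ) + 1) * σ ≤ (j : ℕ) * σ := mul_le_mul_of_nonneg_right h3 hσ0.le
    linarith [hj'.1]
  · refine hgen 0 le_rfl (by linarith) fun j hj => h ⟨j, ?_, ?_⟩
    · have := hj.1
      linarith
    · have := hj.2
      linarith

/-- A thin box and fewer than `(n_1 + 1) ⋯ (n_d + 1)` cubes of side `s < 1` do not cover the box with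
the sides `n_k`. -/
theorem not_cover_int {m N : ℕ} (n : Fin (m + 2) → ℕ) (hn : ∀ k, 1 ≤ n k)
    (hN : N < ∏ k, (n k + 1)) {s η : ℝ} (hs0 : 0 < s) (hη : 0 < η)
    (hηs : η < (1 - s) / 3) (a : Fin (N + 1) → Fin (m + 2) → ℝ) (h0 : a 0 1 = η)
    (h1 : ∀ (i : Fin N) k, a i.succ k = s) :
    ¬ ∃ v : Fin (N + 1) → Fin (m + 2) → ℝ, ∀ x : Fin (m + 2) → ℝ,
      (∀ k, 0 ≤ x k ∧ x k ≤ n k) → ∃ i, ∀ k, v i k ≤ x k ∧ x k ≤ v i k + a i k := by
  rintro ⟨v, hv⟩
  have hg := fun k => grid (c := v 0 1) (hn k) hs0 hη hηs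
  choose q hq1 hq2 using hg
  let pt : ((k : Fin (m + 2)) → Fin (n k + 1)) → Fin (m + 2) → ℝ := fun b k => q k (b k)
  have hcov : ∀ b, ∃ j : Fin N, ∀ k, v j.succ k ≤ pt b k ∧ pt b k ≤ v j.succ k + s := by
    intro b
    obtain ⟨i, hi'⟩ := hv (pt b) fun k => ⟨(hq1 k (b k)).1, (hq1 k (b k)).2.1⟩
    rcases Fin.eq_zero_or_eq_succ i with rfl | ⟨j, rfl⟩
    · exfalso
      have h2 := hi' 1
      rw [h0] at h2
      exact (hq1 1 (b 1)).2.2 h2
    · refine ⟨j, fun k => ?_⟩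
      have := hi' k
      rwa [h1] at this
  choose j hj using hcov
  obtain ⟨b, b', hbb, hjj⟩ := Fintype.exists_ne_map_eq_of_card_lt j (by
    rw [Fintype.card_fin, Fintype.card_pi]
    simpa using hN)
  obtain ⟨k, hk⟩ := Function.ne_iff.1 hbb
  have e1 := hj b k
  have e2 := hj b' k
  rw [hjj] at e1
  simp only [pt] at e1 e2
  rcases lt_or_gt_of_ne hk with h | h
  · have := hq2 k _ _ h
    linarith [e1.1, e1.2, e2.1, e2.2]
  · have := hq2 k _ _ h
    linarith [e1.1, e1.2, e2.1, e2.2]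

/-- **The constant `(n_1 + 1) ⋯ (n_d + 1) - 1` cannot be lowered** for the box with the integer sides
`n_k`, whatever the total volume `T` below it. -/
theorem sharp_exact_int (d : ℕ) (hd : 2 ≤ d) (n : Fin d → ℕ) (hn : ∀ k, 1 ≤ n k) (T : ℝ)
    (hT0 : 0 < T) (hT : T < (∏ k, (n k + 1 : ℝ)) - 1) :
    ∃ (N : ℕ) (a : Fin N → Fin d → ℝ), (∀ i k, 0 < a i k ∧ a i k ≤ 1) ∧ (∃ i k, a i k = 1) ∧
      ∑ i, ∏ k, a i k = T ∧
      ¬ ∃ v : Fin N → Fin d → ℝ, ∀ x : Fin d → ℝ, (∀ k, 0 ≤ x k ∧ x k ≤ n k) →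
        ∃ i, ∀ k, v i k ≤ x k ∧ x k ≤ v i k + a i k := by
  obtain ⟨m, rfl⟩ : ∃ m, d = m + 2 := ⟨d - 2, by omega⟩
  set Pn : ℕ := ∏ k, (n k + 1) with hPn
  have hPnr : (Pn : ℝ) = ∏ k, (n k + 1 : ℝ) := by
    rw [hPn]
    push_cast
    rfl
  rw [← hPnr] at hT
  have hPn1 : 1 ≤ Pn := Finset.one_le_prod' fun k _ => by omega
  set N : ℕ := Pn - 1 with hN
  have hNr : (N : ℝ) = Pn - 1 := by
    rw [hN, Nat.cast_sub hPn1]
    push_cast
    ring
  have hN0 : (0 : ℝ) < N := by rw [hNr]; linarith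
  have hd0 : (0 : ℝ) < (m + 2 : ℕ) := by positivity
  -- the side of the largest cubes
  set σ : ℝ := (T / N) ^ (1 / ((m + 2 : ℕ) : ℝ)) with hσ
  have hTN0 : 0 < T / N := div_pos hT0 hN0
  have hTN1 : T / N < 1 := by
    rw [div_lt_one hN0, hNr]
    exact hT
  have hσ1 : σ < 1 := Real.rpow_lt_one hTN0.le hTN1 (by positivity)
  have hσ0 : 0 < σ := Real.rpow_pos_of_pos hTN0 _
  -- the thin side
  set η : ℝ := min ((1 - σ) / 4) (T / 2) with hη
  have hη0 : 0 < η := lt_min (by linarith) (by linarith)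
  have hησ : η ≤ (1 - σ) / 4 := min_le_left _ _
  have hηT : η ≤ T / 2 := min_le_right _ _
  have hη1 : η < 1 := by linarith
  have hηp : η ^ (m + 1) ≤ η := by
    calc η ^ (m + 1) ≤ η ^ 1 := pow_le_pow_of_le_one hη0.le hη1.le (by omega)
      _ = η := pow_one η
  have hηp0 : 0 < η ^ (m + 1) := pow_pos hη0 _
  set s : ℝ := ((T - η ^ (m + 1)) / N) ^ (1 / ((m + 2 : ℕ) : ℝ)) with hs
  have hb0 : 0 < (T - η ^ (m + 1)) / N := div_pos (by linarith) hN0
  have hs0 : 0 < s := Real.rpow_pos_of_pos hb0 _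
  have hsσ : s ≤ σ := by
    apply Real.rpow_le_rpow hb0.le _ (by positivity)
    exact div_le_div_of_nonneg_right (by linarith) hN0.le
  have hspow : s ^ (m + 2) = (T - η ^ (m + 1)) / N := by
    rw [hs, ← Real.rpow_natCast, ← Real.rpow_mul hb0.le, one_div, inv_mul_cancel₀ hd0.ne',
      Real.rpow_one]
  let a : Fin (N + 1) → Fin (m + 2) → ℝ :=
    Fin.cons (fun k => if k = 0 then 1 else η) (fun _ _ => s)
  have ha0 : ∀ k, a 0 k = if k = 0 then 1 else η := fun k => rfl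
  have ha1 : ∀ (i : Fin N) k, a i.succ k = s := fun i k => rfl
  refine ⟨N + 1, a, ?_, ⟨0, 0, by rw [ha0, if_pos rfl]⟩, ?_, ?_⟩
  · intro i k
    rcases Fin.eq_zero_or_eq_succ i with rfl | ⟨j, rfl⟩
    · rw [ha0]
      split_ifs
      · exact ⟨one_pos, le_rfl⟩
      · exact ⟨hη0, hη1.le⟩
    · rw [ha1]
      exact ⟨hs0, by linarith⟩
  · rw [Fin.sum_univ_succ]
    have e1 : ∏ k, a 0 k = η ^ (m + 1) := by
      rw [Fin.prod_univ_succ, ha0, if_pos rfl, one_mul]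
      have : ∀ k : Fin (m + 1), a 0 k.succ = η := fun k => by
        rw [ha0, if_neg (Fin.succ_ne_zero k)]
      rw [Finset.prod_congr rfl (fun k _ => this k), Finset.prod_const, Finset.card_univ,
        Fintype.card_fin]
    have e2 : ∀ i : Fin N, ∏ k, a i.succ k = s ^ (m + 2) := fun i => by
      rw [Finset.prod_congr rfl (fun k _ => ha1 i k), Finset.prod_const, Finset.card_univ,
        Fintype.card_fin]
    rw [e1, Finset.sum_congr rfl (fun i _ => e2 i), Finset.sum_const, Finset.card_univ,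
      Fintype.card_fin, nsmul_eq_mul, hspow]
    field_simp
    ring
  · refine not_cover_int (N := N) n hn ?_ hs0 hη0 (by linarith) a ?_ ha1
    · rw [← hPn]
      omega
    · rw [ha0, if_neg (by simp)]

end Pool.Agent.H95.MC
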